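import Mathlib

/-!
# Definitions of the final statement (MP_da777f_gt)

Rational singular homology, rational homology balls and spheres, the linking form of a rational
homology 3-sphere in terms of singular cochains, topological manifolds with boundary.
Everything is defined from Mathlib alone.
-/

set_option autoImplicit false

namespace Run7.h841.F

open Set Topology

/-- singular `n`-simplices of `X` -/
abbrev Sx (X : Type) [TopologicalSpace X] (n : ℕ) : Type :=
  C(stdSimplex ℝ (Fin (n + 1)), X)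

/-- the `i`-th face of a singular simplex -/
noncomputable def face {X : Type} [TopologicalSpace X] (n : ℕ) (i : Fin (n + 2))
    (σ : Sx X (n + 1)) : Sx X n :=
  σ.comp ⟨stdSimplex.map i.succAbove, stdSimplex.continuous_map _⟩

/-- the boundary operator on rational singular chains -/
noncomputable def bdry (X : Type) [TopologicalSpace X] (n : ℕ) :
    (Sx X (n + 1) →₀ ℚ) →ₗ[ℚ] (Sx X n →₀ ℚ) :=
  Finsupp.linearCombination ℚ fun σ : Sx X (n + 1) =>
    ∑ i : Fin (n + 2), (-1 : ℚ) ^ (i : ℕ) • Finsupp.single (face n i σ) (1 : ℚ)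

/-- rational singular cycles -/
noncomputable def cyc (X : Type) [TopologicalSpace X] : ∀ n : ℕ, Submodule ℚ (Sx X n →₀ ℚ)
  | 0 => ⊤
  | n + 1 => LinearMap.ker (bdry X n)

/-- rational singular homology -/
abbrev RatH (X : Type) [TopologicalSpace X] (n : ℕ) : Type :=
  cyc X n ⧸ (LinearMap.range (bdry X n)).submoduleOf (cyc X n)

/-- `X` has the rational homology of a point -/
def IsRatBall (X : Type) [TopologicalSpace X] : Prop :=
  ∀ n : ℕ, Module.rank ℚ (RatH X n) = if n = 0 then 1 else 0

/-- `X` has the rational homology of the 3-sphere -/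
def IsRatSphere3 (X : Type) [TopologicalSpace X] : Prop :=
  ∀ n : ℕ, Module.rank ℚ (RatH X n) = if n = 0 ∨ n = 3 then 1 else 0

/-- the coboundary of a rational singular cochain -/
noncomputable def cob {X : Type} [TopologicalSpace X] (n : ℕ) (c : Sx X n → ℚ) :
    Sx X (n + 1) → ℚ :=
  fun σ => ∑ i : Fin (n + 2), (-1 : ℚ) ^ (i : ℕ) * c (face n i σ)

/-- integral rational numbers -/
def IsInt (q : ℚ) : Prop := ∃ m : ℤ, q = m

/-- the face of a singular 3-simplex spanned by the vertices `f 0, f 1, …` -/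
noncomputable def vface {X : Type} [TopologicalSpace X] {m n : ℕ} (f : Fin (m + 1) → Fin (n + 1))
    (σ : Sx X n) : Sx X m :=
  σ.comp ⟨stdSimplex.map f, stdSimplex.continuous_map _⟩

/-- the cup product of a 1-cochain and a 2-cochain: `(a ∪ b) σ = a [v₀,v₁] * b [v₁,v₂,v₃]` -/
noncomputable def cup12 {X : Type} [TopologicalSpace X] (a : Sx X 1 → ℚ) (b : Sx X 2 → ℚ) :
    Sx X 3 → ℚ :=
  fun σ => a (vface (![0, 1] : Fin 2 → Fin 4) σ) * b (vface (![1, 2, 3] : Fin 3 → Fin 4) σ)

/-- rational 1-cochains whose coboundary is integral: these represent the elements of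
`H¹(X; ℚ/ℤ)`, and for a rational homology 3-sphere `H¹(X; ℚ/ℤ) ≅ H²(X; ℤ) ≅ H₁(X; ℤ)` -/
noncomputable def Z1QZ (X : Type) [TopologicalSpace X] : AddSubgroup (Sx X 1 → ℚ) where
  carrier := {a | ∀ σ : Sx X 2, IsInt (cob 1 a σ)}
  zero_mem' := by
    intro σ
    refine ⟨0, ?_⟩
    simp [cob]
  add_mem' := by
    intro a b ha hb σ
    obtain ⟨m, hm⟩ := ha σ
    obtain ⟨k, hk⟩ := hb σ
    refine ⟨m + k, ?_⟩
    have : cob 1 (a + b) σ = cob 1 a σ + cob 1 b σ := by
      simp only [cob, Pi.add_apply, mul_add, Finset.sum_add_distrib]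
    rw [this, hm, hk]
    push_cast
    rfl
  neg_mem' := by
    intro a ha σ
    obtain ⟨m, hm⟩ := ha σ
    refine ⟨-m, ?_⟩
    have : cob 1 (-a) σ = -cob 1 a σ := by
      simp only [cob, Pi.neg_apply, mul_neg, Finset.sum_neg_distrib]
    rw [this, hm]
    push_cast
    rfl

/-- the linking number of the classes of `a` and `b` in `ℚ/ℤ` vanishes: the cocycle
`a ∪ δ b` with values in `ℚ/ℤ` is a coboundary (for a closed connected oriented 3-manifold
`H³(X; ℚ/ℤ) ≅ ℚ/ℤ`, and the linking form is `⟨a ∪ δ b, [X]⟩`) -/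
def LinkZero {X : Type} [TopologicalSpace X] (a b : Sx X 1 → ℚ) : Prop :=
  ∃ e : Sx X 2 → ℚ, ∀ σ : Sx X 3, IsInt (cup12 a (cob 1 b) σ - cob 2 e σ)

/-- the linking form is metabolic: there is a subgroup of `H¹(X; ℚ/ℤ) ≅ H₁(X; ℤ)` (given by its
preimage `P` among the cocycles) which is equal to its orthogonal complement -/
def LinkingFormMetabolic (X : Type) [TopologicalSpace X] : Prop :=
  ∃ P : AddSubgroup (Sx X 1 → ℚ), P ≤ Z1QZ X ∧
    ∀ a ∈ Z1QZ X, (a ∈ P ↔ ∀ b ∈ P, LinkZero a b)

/-- `W` is a topological `n`-manifold with boundary `B` -/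
def IsManifoldWithBoundary (n : ℕ) [NeZero n] (W : Type) [TopologicalSpace W] (B : Set W) : Prop :=
  ∀ x : W, ∃ e : OpenPartialHomeomorph W (EuclideanHalfSpace n), x ∈ e.source ∧
    ∀ y ∈ e.source, (y ∈ B ↔ (e y).1 0 = 0)

/-- the final statement: a closed topological 3-manifold, a rational homology sphere with
metabolic linking form, which is not the boundary of a compact topological 4-manifold with the
rational homology of a point -/
def Final : Prop :=
  ∃ (M : Type) (_ : TopologicalSpace M) (_ : CompactSpace M) (_ : T2Space M)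
    (_ : ChartedSpace (EuclideanSpace ℝ (Fin 3)) M),
    IsRatSphere3 M ∧ LinkingFormMetabolic M ∧
    ∀ (W : Type) [TopologicalSpace W] [CompactSpace W] [T2Space W] (i : M → W),
      IsEmbedding i → IsManifoldWithBoundary 4 W (range i) → ¬ IsRatBall W

end Run7.h841.F
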